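import Pool.Agent.Y576.TD.Gen

set_option autoImplicit false

/-!
Nondecreasing functions attached to sets of natural numbers.
-/

namespace Pool.Agent.Y576.TD

open Set Filter Topology Pool.Agent.H685R3

/-- the last element of `a` up to `j` (zero if there is none) -/
def last (a : ℕ → Bool) (j : ℕ) : ℕ := Nat.findGreatest (fun l => a l = true) j

/-- the first number from `k` on which is not in `a` -/
noncomputable def next (a : ℕ → Bool) (k : ℕ) : ℕ := sInf {m | k ≤ m ∧ a m = false}

/-- the nondecreasing function of a set: the value at `j` is the end of the run of `a` which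
contains the last element of `a` up to `j` -/
noncomputable def walk (a : ℕ → Bool) (j : ℕ) : ℕ := next a (last a j)

theorem last_le (a : ℕ → Bool) (j : ℕ) : last a j ≤ j := Nat.findGreatest_le _

theorem last_mem {a : ℕ → Bool} {i j : ℕ} (hi : a i = true) (hij : i ≤ j) :
    a (last a j) = true ∧ i ≤ last a j :=
  ⟨Nat.findGreatest_spec (P := fun l => a l = true) hij hi, Nat.le_findGreatest hij hi⟩

theorem last_mono (a : ℕ → Bool) : Monotone (last a) := fun _ _ h => Nat.findGreatest_mono_right _ h

theorem next_spec {a : ℕ → Bool} (ha : ∃ᶠ n in atTop, a n = false) (k : ℕ) :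
    k ≤ next a k ∧ a (next a k) = false := by
  obtain ⟨m, h1, h2⟩ := frequently_atTop.1 ha k
  exact Nat.sInf_mem (s := {m | k ≤ m ∧ a m = false}) ⟨m, h1, h2⟩

theorem next_le {a : ℕ → Bool} {k m : ℕ} (h1 : k ≤ m) (h2 : a m = false) : next a k ≤ m :=
  Nat.sInf_le ⟨h1, h2⟩

theorem next_mono {a : ℕ → Bool} (ha : ∃ᶠ n in atTop, a n = false) : Monotone (next a) :=
  fun _ l h => next_le (h.trans (next_spec ha l).1) (next_spec ha l).2

theorem walk_mono {a : ℕ → Bool} (ha : ∃ᶠ n in atTop, a n = false) : Monotone (walk a) :=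
  fun _ _ h => next_mono ha (last_mono a h)

theorem walk_le {a b : ℕ → Bool} (hab : Le a b) (ha : ∃ᶠ n in atTop, a n = true)
    (hb : ∃ᶠ n in atTop, b n = false) : ∀ᶠ j in atTop, walk a j ≤ walk b j := by
  obtain ⟨N, hN⟩ := eventually_atTop.1 hab
  obtain ⟨n, hn, han⟩ := frequently_atTop.1 ha N
  filter_upwards [eventually_ge_atTop n] with j hj
  obtain ⟨h1, h2⟩ := last_mem han hj
  have h3 := hN _ (hn.trans h2) h1
  have h4 := (last_mem h3 (last_le a j)).2
  have h5 : last a j ≤ last b j := Nat.le_findGreatest (last_le a j) h3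
  obtain ⟨h6, h7⟩ := next_spec hb (last b j)
  refine next_le (h5.trans h6) ?_
  by_contra hc
  rw [Bool.not_eq_false] at hc
  have h8 := hN _ (hn.trans (h2.trans (h5.trans h6))) hc
  rw [h7] at h8
  exact absurd h8 (by simp)

theorem walk_continuousAt {a : ℕ → Bool} (ha : ∃ᶠ n in atTop, a n = false) (j : ℕ) :
    ContinuousAt (fun a => walk a j) a := by
  have h1 : ∀ᶠ b in 𝓝 a, ∀ i ∈ Finset.range (max j (walk a j) + 1), b i = a i := by
    rw [Filter.eventually_all_finset]
    intro i _
    have h2 : IsOpen ((fun b : ℕ → Bool => b i) ⁻¹' {a i}) :=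
      (continuous_apply (A := fun _ : ℕ => Bool) i).isOpen_preimage _ (isOpen_discrete _)
    exact h2.mem_nhds rfl
  have h2 : ∀ᶠ b in 𝓝 a, walk b j = walk a j := by
    filter_upwards [h1] with b hb
    have hb' : ∀ i, i ≤ max j (walk a j) → b i = a i := fun i hi =>
      hb i (Finset.mem_range.2 (by omega))
    have h3 : last b j = last a j := by
      refine le_antisymm ?_ ?_
      · rcases Nat.eq_zero_or_pos (last b j) with h | h
        · omega
        · have h4 : b (last b j) = true :=
            Nat.findGreatest_of_ne_zero (P := fun l => b l = true) rfl (by omega)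
          rw [hb' _ ((last_le b j).trans (le_max_left _ _))] at h4
          exact Nat.le_findGreatest (last_le b j) h4
      · rcases Nat.eq_zero_or_pos (last a j) with h | h
        · omega
        · have h4 : a (last a j) = true :=
            Nat.findGreatest_of_ne_zero (P := fun l => a l = true) rfl (by omega)
          rw [← hb' _ ((last_le a j).trans (le_max_left _ _))] at h4
          exact Nat.le_findGreatest (last_le a j) h4
    unfold walk
    rw [h3]
    obtain ⟨h4, h5⟩ := next_spec ha (last a j)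
    have h6 : b (next a (last a j)) = false := by
      rw [hb' (next a (last a j)) (le_max_right _ _)]
      exact h5
    refine le_antisymm (next_le h4 h6) ?_
    have h7 : last a j ≤ next b (last a j) ∧ b (next b (last a j)) = false :=
      Nat.sInf_mem (s := {m | last a j ≤ m ∧ b m = false}) ⟨_, h4, h6⟩
    have h8 : next b (last a j) ≤ max j (walk a j) :=
      (next_le h4 h6).trans (le_max_right _ _)
    refine next_le h7.1 ?_
    rw [← hb' _ h8]
    exact h7.2
  exact (tendsto_const_nhds (x := walk a j)).congr' (h2.mono fun b hb => hb.symm)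

/-- interval partitions attached to residual sets -/
theorem partition {C : Set (ℕ → Bool)} (hC : C ∈ residual (ℕ → Bool)) (G : ℕ → ℕ) :
    ∃ (u : ℕ → ℕ) (w : ℕ → ℕ → Bool), StrictMono u ∧ u 0 = 0 ∧ (∀ k, G (u k) ≤ u (k + 1)) ∧
      ∀ x : ℕ → Bool, (∃ᶠ k in atTop, ∀ n, u k ≤ n → n < u (k + 1) → x n = w k n) → x ∈ C := by
  obtain ⟨f, hfo, hfd, hfI⟩ := exists_seq hC
  let g : ℕ → Set (ℕ → Bool) := fun k => ⋂ j ∈ Finset.range (k+1), f j
  have hgo : ∀ k, IsOpen (g k) := fun k => isOpen_biInter_finset (fun j _ => hfo j)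
  have hgd : ∀ k, Dense (g k) := by
    intro k
    have hmem : g k ∈ residual (ℕ → Bool) := by
      have : (⋂ j ∈ Finset.range (k+1), f j) ∈ residual (ℕ → Bool) := by
        rw [Filter.biInter_finset_mem]
        intro j _
        exact residual_of_dense_open (hfo j) (hfd j)
      exact this
    exact dense_of_mem_residual hmem
  choose! nxt hnxt w hw using fun k m =>
    Pool.Agent.TH774.KP.pattern_step' (hgo k) (hgd k) m
  let u : ℕ → ℕ := fun k => Nat.rec (motive := fun _ => ℕ) 0 (fun k m => max (nxt k m) (G m)) k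
  have hu : ∀ k, u (k+1) = max (nxt k (u k)) (G (u k)) := fun k => rfl
  refine ⟨u, fun k => w k (u k), strictMono_nat_of_lt_succ (fun k => ?_), rfl, fun k => ?_,
    fun x hx => ?_⟩
  · rw [hu]
    exact lt_of_lt_of_le (hnxt k (u k)) (le_max_left _ _)
  · rw [hu]
    exact le_max_right _ _
  · apply hfI
    rw [Set.mem_iInter]
    intro j
    obtain ⟨k, hjk, hk⟩ := frequently_atTop.1 hx j
    have hxg : x ∈ g k := by
      apply hw k (u k) x
      intro n hn1 hn2
      refine hk n hn1 ?_
      rw [hu]
      exact lt_of_lt_of_le hn2 (le_max_left _ _)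
    exact Set.mem_iInter₂.1 hxg j (Finset.mem_range.2 (by omega))

/-- the index of the block containing `j` -/
def blk (u : ℕ → ℕ) (j : ℕ) : ℕ := Nat.findGreatest (fun k => u k ≤ j) j

theorem blk_spec {u : ℕ → ℕ} (hu : StrictMono u) (h0 : u 0 = 0) (j : ℕ) :
    u (blk u j) ≤ j ∧ j < u (blk u j + 1) := by
  constructor
  · exact Nat.findGreatest_spec (P := fun k => u k ≤ j) (Nat.zero_le j) (by simp [h0])
  · by_contra hc
    push Not at hc
    have h1 : blk u j + 1 ≤ j := (hu.id_le _).trans hc
    have h2 := Nat.le_findGreatest (P := fun k => u k ≤ j) h1 hc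
    have h3 : blk u j + 1 ≤ blk u j := h2
    omega

theorem blk_eq {u : ℕ → ℕ} (hu : StrictMono u) (h0 : u 0 = 0) {j k : ℕ} (h1 : u k ≤ j)
    (h2 : j < u (k + 1)) : blk u j = k := by
  obtain ⟨h3, h4⟩ := blk_spec hu h0 j
  have h5 : blk u j < k + 1 := hu.lt_iff_lt.1 (lt_of_le_of_lt h3 h2)
  have h6 : k < blk u j + 1 := hu.lt_iff_lt.1 (lt_of_le_of_lt h1 h4)
  omega

theorem frequently_eq (v : Bool) :
    ∀ᶠ a in residual (ℕ → Bool), ∃ᶠ n in atTop, a n = v := by
  have h1 : ∀ᶠ a in residual (ℕ → Bool), ∀ N : ℕ, ∃ n ≥ N, a n = v := by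
    rw [eventually_countable_forall]
    intro N
    refine residual_of_dense_open ?_ ?_
    · have h2 : {a : ℕ → Bool | ∃ n ≥ N, a n = v} = ⋃ n ≥ N, {a | a n = v} := by
        ext a
        simp
      rw [h2]
      exact isOpen_biUnion fun n _ =>
        (continuous_apply (A := fun _ : ℕ => Bool) n).isOpen_preimage {v} (isOpen_discrete _)
    · rw [dense_iff_inter_open]
      rintro U hU ⟨x, hx⟩
      obtain ⟨k, hk⟩ := Pool.Agent.TH774.KP.exists_cylinder_subset hU hx
      refine ⟨fun n => if n < k then x n else v, hk _ fun i hi => by simp [hi], max k N,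
        le_max_right _ _, ?_⟩
      have : ¬ max k N < k := by omega
      simp [this]
  filter_upwards [h1] with a ha
  exact frequently_atTop.2 ha

/-- infinite and coinfinite -/
def Good (a : ℕ → Bool) : Prop := (∃ᶠ n in atTop, a n = true) ∧ ∃ᶠ n in atTop, a n = false

theorem good_residual : ∀ᶠ a in residual (ℕ → Bool), Good a :=
  (frequently_eq true).and (frequently_eq false)

theorem good_pairs : {p : (ℕ → Bool) × (ℕ → Bool) | Good p.1 ∧ Good p.2} ∈
    residual ((ℕ → Bool) × (ℕ → Bool)) := by
  have h1 : ∀ᶠ p in residual ((ℕ → Bool) × (ℕ → Bool)), Good p.1 :=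
    (tendsto_residual_of_isOpenMap continuous_fst isOpenMap_fst).eventually good_residual
  have h2 : ∀ᶠ p in residual ((ℕ → Bool) × (ℕ → Bool)), Good p.2 :=
    (tendsto_residual_of_isOpenMap continuous_snd isOpenMap_snd).eventually good_residual
  exact h1.and h2

variable {P : Type*} [PartialOrder P]

/-- The relation between `a` and `b` that `φ (walk a) ≤ φ (walk b)`; a finite set is below all sets
and a cofinite set is above all sets. -/
def Rel (φ : (ℕ → ℕ) → P) (a b : ℕ → Bool) : Prop :=
  (∃ᶠ n in atTop, a n = true) → (∃ᶠ n in atTop, b n = true) ∧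
    ((∃ᶠ n in atTop, b n = false) → (∃ᶠ n in atTop, a n = false) ∧ φ (walk a) ≤ φ (walk b))

/-- nondecreasing with respect to eventual dominance, on the nondecreasing functions -/
def Incr (φ : (ℕ → ℕ) → P) : Prop :=
  ∀ x y, Monotone x → Monotone y → (∀ᶠ n in atTop, x n ≤ y n) → φ x ≤ φ y

theorem Le.freq {a b : ℕ → Bool} (h : Le a b) (ha : ∃ᶠ n in atTop, a n = true) :
    ∃ᶠ n in atTop, b n = true := (ha.and_eventually h).mono fun _ hn => hn.2 hn.1

theorem Le.freq' {a b : ℕ → Bool} (h : Le a b) (hb : ∃ᶠ n in atTop, b n = false) :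
    ∃ᶠ n in atTop, a n = false := by
  refine (hb.and_eventually h).mono fun n hn => ?_
  by_contra hc
  rw [Bool.not_eq_false] at hc
  have := hn.2 hc
  rw [hn.1] at this
  exact absurd this (by simp)

theorem rel_mono {φ : (ℕ → ℕ) → P} (hφ : Incr φ) (a a' b b' : ℕ → Bool) (h1 : Le a' a)
    (h2 : Le b b') (h : Rel φ a b) : Rel φ a' b' := by
  intro ha'
  obtain ⟨h3, h4⟩ := h (h1.freq ha')
  refine ⟨h2.freq h3, fun hb' => ?_⟩
  obtain ⟨h5, h6⟩ := h4 (h2.freq' hb')
  refine ⟨h1.freq' h5, ?_⟩
  exact (hφ _ _ (walk_mono (h1.freq' h5)) (walk_mono h5) (walk_le h1 ha' h5)).trans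
    (h6.trans (hφ _ _ (walk_mono (h2.freq' hb')) (walk_mono hb') (walk_le h2 h3 hb')))

/-- all blocks with index not congruent to `r` modulo four, and the patterns `w` on the others -/
def ar (u : ℕ → ℕ) (w : ℕ → ℕ → Bool) (r : ℕ) : ℕ → Bool :=
  fun m => if blk u m % 4 = r then w (blk u m) m else true

theorem ar_of_ne {u : ℕ → ℕ} {w : ℕ → ℕ → Bool} {r m : ℕ} (h : blk u m % 4 ≠ r) :
    ar u w r m = true := if_neg h

theorem ar_of_eq {u : ℕ → ℕ} {w : ℕ → ℕ → Bool} {r m : ℕ} (h : blk u m % 4 = r) :
    ar u w r m = w (blk u m) m := if_pos h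

/-- **Order preserving maps of functions.** -/
theorem main {φ : (ℕ → ℕ) → P} (hφ : Incr φ)
    (hD : ∀ σ, Determined (Pool.Agent.W885.TD.sat (Code (Rel φ)) (Pool.Agent.W885.TD.cc σ))) :
    (∃ c, (∃ g : ℕ → ℕ, ∀ x, Monotone x → ¬ c ≤ φ x → ∀ᶠ n in atTop, x n ≤ g n) ∧
      ∀ g : ℕ → ℕ, ∃ x y, Monotone x ∧ Monotone y ∧ φ x = c ∧ φ y = c ∧
        ∀ n, g n ≤ max (x n) (y n)) ∨
    ∃ h : (ℕ → Bool) → ℕ → ℕ, Continuous h ∧ (∀ s, Monotone (h s)) ∧
      ∀ s t, s ≠ t → ¬ φ (h s) ≤ φ (h t) := by
  rcases dichotomy (rel_mono hφ) hD good_pairs with ⟨a, ha⟩ | ⟨h, hh, hst⟩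
  · left
    -- the generic value
    have hC : ∀ᶠ b in residual (ℕ → Bool), Good b ∧ φ (walk b) = φ (walk a) := by
      filter_upwards [ha, good_residual] with b hb hg
      obtain ⟨h1, h2⟩ := hb.2 hg.1
      obtain ⟨h3, h4⟩ := hb.1 h1
      obtain ⟨h5, h6⟩ := h4 hg.2
      obtain ⟨_, h7⟩ := h2 h5
      exact ⟨hg, le_antisymm h7 h6⟩
    refine ⟨φ (walk a), ?_, ?_⟩
    · obtain ⟨u, w, hu, h0, -, huw⟩ := partition hC fun _ => 0
      refine ⟨fun j => u (blk u j + 2), fun x hx hcx => ?_⟩
      by_contra hnot
      have hf : ∃ᶠ n in atTop, u (blk u n + 2) < x n := by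
        exact (not_eventually.1 hnot).mono fun n hn => not_le.1 hn
      obtain ⟨p, hp⟩ : ∃ p : ℕ, ∃ᶠ n in atTop, u (blk u n + 2) < x n ∧ blk u n % 2 = p := by
        have h1 : ∃ᶠ n in atTop, (u (blk u n + 2) < x n ∧ blk u n % 2 = 0) ∨
            (u (blk u n + 2) < x n ∧ blk u n % 2 = 1) := by
          refine hf.mono fun n hn => ?_
          rcases Nat.mod_two_eq_zero_or_one (blk u n) with h | h
          · exact Or.inl ⟨hn, h⟩
          · exact Or.inr ⟨hn, h⟩
        rcases frequently_or_distrib.1 h1 with h | h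
        · exact ⟨0, h⟩
        · exact ⟨1, h⟩
      classical
      let Q : ℕ → Prop := fun m => ∃ n, u (blk u n + 2) < x n ∧ blk u n % 2 = p ∧
        blk u m = blk u n + 1
      let A : ℕ → Bool := fun m => decide (Q m)
      let A' : ℕ → Bool := fun m => decide (Q m) && w (blk u m) m
      have hA' : A' ∈ {b | Good b ∧ φ (walk b) = φ (walk a)} := by
        apply huw
        rw [frequently_atTop]
        intro K
        obtain ⟨n, hn, hn1, hn2⟩ := frequently_atTop.1 hp (u K)
        have hK : K ≤ blk u n := by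
          have h3 := (blk_spec hu h0 n).2
          have h4 : K < blk u n + 1 := hu.lt_iff_lt.1 (lt_of_le_of_lt hn h3)
          omega
        refine ⟨blk u n + 1, by omega, fun m hm1 hm2 => ?_⟩
        have h5 : blk u m = blk u n + 1 := blk_eq hu h0 hm1 hm2
        have h6 : Q m := ⟨n, hn1, hn2, h5⟩
        simp [A', h6, h5]
      have hAA : Le A' A := Le.of_le fun n hn => by
        simp only [A', Bool.and_eq_true] at hn
        exact hn.1
      have hAinf : ∃ᶠ n in atTop, A n = true := hAA.freq hA'.1.1
      have hAp : ∀ m, blk u m % 2 = p → A m = false := by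
        intro m hm
        simp only [A, decide_eq_false_iff_not]
        rintro ⟨n, _, h1, h2⟩
        omega
      have hAco : ∃ᶠ n in atTop, A n = false := hp.mono fun n hn => hAp n hn.2
      have h1 : φ (walk a) ≤ φ (walk A) := by
        rw [← hA'.2]
        exact hφ _ _ (walk_mono hA'.1.2) (walk_mono hAco) (walk_le hAA hA'.1.1 hAco)
      refine hcx (h1.trans (hφ _ _ (walk_mono hAco) hx ?_))
      obtain ⟨i, hi⟩ := hAinf.exists
      filter_upwards [eventually_ge_atTop i] with j hj
      obtain ⟨h2, h3⟩ := last_mem hi hj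
      simp only [A, decide_eq_true_eq] at h2
      obtain ⟨n, hn1, hn2, hn3⟩ := h2
      obtain ⟨h4, h5⟩ := blk_spec hu h0 (last A j)
      rw [hn3] at h4 h5
      have h6 : next A (last A j) ≤ u (blk u n + 2) := by
        refine next_le ?_ (hAp _ ?_)
        · have h7 : blk u n + 1 + 1 = blk u n + 2 := by omega
          rw [h7] at h5
          exact h5.le
        · have h7 : blk u (u (blk u n + 2)) = blk u n + 2 :=
            blk_eq hu h0 le_rfl (hu (Nat.lt_succ_self _))
          rw [h7]
          omega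
      have h7 : n < last A j := by
        have h8 := (blk_spec hu h0 n).2
        omega
      have h8 : x n ≤ x j := hx (h7.le.trans (last_le A j))
      change next A (last A j) ≤ x j
      omega
    · intro g
      obtain ⟨u, w, hu, h0, hG, huw⟩ := partition hC fun m => (Finset.range (m + 1)).sup g
      have hmem : ∀ r < 4, ar u w r ∈
          {b : ℕ → Bool | Good b ∧ φ (walk b) = φ (walk a)} := by
        intro r hr
        apply huw
        rw [frequently_atTop]
        intro K
        refine ⟨4 * K + r, by omega, fun m hm1 hm2 => ?_⟩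
        have h5 : blk u m = 4 * K + r := blk_eq hu h0 hm1 hm2
        have h6 : blk u m % 4 = r := by omega
        rw [ar_of_eq h6, h5]
      have hbig : ∀ r < 4, ∀ n, blk u n % 4 ≠ r → (blk u n + 1) % 4 ≠ r → g n ≤
          walk (ar u w r) n := by
        intro r hr n h1 h2
        have hAn : ar u w r n = true := ar_of_ne h1
        have h3 : last (ar u w r) n = n := le_antisymm (last_le _ n) (last_mem hAn le_rfl).2
        have h4 : u (blk u n + 2) ≤ walk (ar u w r) n := by
          change _ ≤ next (ar u w r) (last (ar u w r) n)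
          rw [h3]
          obtain ⟨h5, h6⟩ := next_spec (hmem r hr).1.2 n
          by_contra hc
          push Not at hc
          have h7 : blk u (next (ar u w r) n) = blk u n ∨
              blk u (next (ar u w r) n) = blk u n + 1 := by
            obtain ⟨h8, h9⟩ := blk_spec hu h0 n
            rcases lt_or_ge (next (ar u w r) n) (u (blk u n + 1)) with h | h
            · exact Or.inl (blk_eq hu h0 (h8.trans h5) h)
            · exact Or.inr (blk_eq hu h0 h hc)
          have h8 : ar u w r (next (ar u w r) n) = true := by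
            rcases h7 with h | h
            · exact ar_of_ne (by rw [h]; exact h1)
            · exact ar_of_ne (by rw [h]; exact h2)
          rw [h6] at h8
          exact absurd h8 (by simp)
        have h5 : g n ≤ (Finset.range (u (blk u n + 1) + 1)).sup g :=
          Finset.le_sup (f := g) (Finset.mem_range.2 (by
            have := (blk_spec hu h0 n).2
            omega))
        exact h5.trans ((hG _).trans h4)
      refine ⟨_, _, walk_mono (hmem 2 (by omega)).1.2, walk_mono (hmem 0 (by omega)).1.2,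
        (hmem 2 (by omega)).2, (hmem 0 (by omega)).2, fun n => ?_⟩
      rw [le_max_iff]
      have h4 : blk u n % 4 < 4 := Nat.mod_lt _ (by norm_num)
      by_cases h5 : blk u n % 4 = 0 ∨ blk u n % 4 = 3
      · exact Or.inl (hbig 2 (by omega) n (by omega) (by omega))
      · exact Or.inr (hbig 0 (by omega) n (by omega) (by omega))
  · right
    have hgood : ∀ s, Good (h s) := by
      intro s
      have hne : s ≠ fun n => !(s n) := by
        intro hc
        have := congrFun hc 0
        cases h0 : s 0 <;> simp [h0] at this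
      exact (hst s _ hne).2.1
    refine ⟨fun s => walk (h s), continuous_pi fun j => ?_, fun s => walk_mono (hgood s).2,
      fun s t hs hle => ?_⟩
    · rw [continuous_iff_continuousAt]
      intro s
      exact (walk_continuousAt (hgood s).2 j).comp (f := h) hh.continuousAt
    · exact (hst s t hs).1 fun _ => ⟨(hgood t).1, fun _ => ⟨(hgood s).2, hle⟩⟩

end Pool.Agent.Y576.TD
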