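import Pool.Agent.W885.TD.Main
import Pool.Agent.TH774.KP.Part
import Pool.Agent.H565R2.FO2.Myc

set_option autoImplicit false

/-!
Monotone relations between subsets of the natural numbers modulo finite sets: generic behaviour.
-/

namespace Pool.Agent.Y576.TD

open Set Filter Topology Pool.Agent.H685R3

/-- The theorem of Kuratowski and Ulam. -/
theorem ku {X Y : Type*} [TopologicalSpace X] [TopologicalSpace Y] [SecondCountableTopology Y]
    {A : Set (X × Y)} (hA : A ∈ residual (X × Y)) :
    ∀ᶠ x in residual X, ∀ᶠ y in residual Y, (x, y) ∈ A := by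
  obtain ⟨S, h1, h2, h3, h4⟩ := mem_residual_iff.1 hA
  obtain ⟨b, hbc, hbe, hb⟩ := TopologicalSpace.exists_countable_basis Y
  have key : ∀ W ∈ S, ∀ᶠ x in residual X, ∀ᶠ y in residual Y, (x, y) ∈ W := by
    intro W hW
    have h5 : ∀ v ∈ b, ∀ᶠ x in residual X, ∃ y ∈ v, (x, y) ∈ W := by
      intro v hv
      refine residual_of_dense_open ?_ ?_
      · have : {x : X | ∃ y ∈ v, (x, y) ∈ W} = ⋃ y ∈ v, (fun x => (x, y)) ⁻¹' W := by
          ext x
          simp
        rw [this]
        exact isOpen_biUnion fun y _ => (h1 W hW).preimage (by fun_prop)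
      · rw [dense_iff_inter_open]
        intro U hU hUn
        obtain ⟨⟨x, y⟩, ⟨hx, hy⟩, hxy⟩ := (h2 W hW).inter_open_nonempty (U ×ˢ v)
          (hU.prod (hb.isOpen hv)) (hUn.prod (Set.nonempty_iff_ne_empty.2 fun h => hbe (h ▸ hv)))
        exact ⟨x, hx, y, hy, hxy⟩
    filter_upwards [(eventually_countable_ball hbc).2 h5] with x hx
    refine residual_of_dense_open ((h1 W hW).preimage (by fun_prop)) ?_
    rw [dense_iff_inter_open]
    rintro V hV ⟨y, hy⟩
    obtain ⟨v, hv, hyv, hvV⟩ := hb.exists_subset_of_mem_open hy hV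
    obtain ⟨y', hy', hxy'⟩ := hx v hv
    exact ⟨y', hvV hy', hxy'⟩
  filter_upwards [(eventually_countable_ball h3).2 key] with x hx
  filter_upwards [(eventually_countable_ball h3).2 hx] with y hy
  exact h4 hy

/-- flip the coordinates in a finite set -/
def flipF (F : Finset ℕ) : (ℕ → Bool) ≃ₜ (ℕ → Bool) where
  toFun x := fun n => if n ∈ F then !(x n) else x n
  invFun x := fun n => if n ∈ F then !(x n) else x n
  left_inv x := by
    funext n
    by_cases h : n ∈ F <;> simp [h]
  right_inv x := by
    funext n
    by_cases h : n ∈ F <;> simp [h]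
  continuous_toFun := by
    refine continuous_pi fun n => ?_
    by_cases h : n ∈ F
    · simp only [h, if_true]
      exact (continuous_of_discreteTopology (f := fun b : Bool => !b)).comp (continuous_apply n)
    · simpa [h] using continuous_apply n
  continuous_invFun := by
    refine continuous_pi fun n => ?_
    by_cases h : n ∈ F
    · simp only [h, if_true]
      exact (continuous_of_discreteTopology (f := fun b : Bool => !b)).comp (continuous_apply n)
    · simpa [h] using continuous_apply n

theorem flipF_apply (F : Finset ℕ) (x : ℕ → Bool) (n : ℕ) :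
    flipF F x n = if n ∈ F then !(x n) else x n := rfl

/-- The zero-one law for the property of Baire. -/
theorem zero_one {V : Set (ℕ → Bool)} (hB : BaireMeasurableSet V)
    (hV : ∀ x y : ℕ → Bool, (∀ᶠ n in atTop, x n = y n) → x ∈ V → y ∈ V) :
    (∀ᶠ x in residual (ℕ → Bool), x ∈ V) ∨ (∀ᶠ x in residual (ℕ → Bool), x ∉ V) := by
  obtain ⟨U, hU, hIU⟩ := hB.residualEq_isOpen
  rw [Filter.eventuallyEq_set] at hIU
  by_cases hne : U.Nonempty
  · left
    obtain ⟨x0, hx0⟩ := hne
    obtain ⟨k, hk⟩ := Pool.Agent.TH774.KP.exists_cylinder_subset hU hx0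
    have h2 : ∀ᶠ x in residual (ℕ → Bool), ∀ F : Finset ℕ, (flipF F x ∈ V ↔ flipF F x ∈ U) := by
      rw [eventually_countable_forall]
      intro F
      exact (tendsto_residual_of_isOpenMap (flipF F).continuous (flipF F).isOpenMap).eventually hIU
    filter_upwards [h2] with x hx
    set F := (Finset.range k).filter fun n => x n ≠ x0 n with hF
    have h3 : flipF F x ∈ U := by
      apply hk
      intro i hi
      rw [flipF_apply]
      by_cases h4 : x i = x0 i
      · rw [if_neg (by simp [hF, h4]), h4]
      · rw [if_pos (by simp [hF, h4, hi])]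
        cases hxi : x i <;> cases h0 : x0 i <;> simp_all
    have h4 : flipF F x ∈ V := (hx F).2 h3
    refine hV _ _ ?_ h4
    filter_upwards [eventually_ge_atTop k] with n hn
    rw [flipF_apply, if_neg]
    rw [hF, Finset.mem_filter, Finset.mem_range]
    omega
  · right
    rw [Set.not_nonempty_iff_eq_empty] at hne
    subst hne
    filter_upwards [hIU] with x hx
    simpa using hx

/-- the pair coded by a sequence; the first member is complemented -/
def split : (ℕ → Bool) ≃ₜ (ℕ → Bool) × (ℕ → Bool) where
  toFun z := (fun n => !(z (2 * n)), fun n => z (2 * n + 1))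
  invFun p := fun m => if m % 2 = 0 then !(p.1 (m / 2)) else p.2 (m / 2)
  left_inv z := by
    funext m
    rcases Nat.mod_two_eq_zero_or_one m with h | h
    · have h1 : 2 * (m / 2) = m := by omega
      simp [h, h1]
    · have h1 : 2 * (m / 2) + 1 = m := by omega
      simp [h, h1]
  right_inv p := by
    refine Prod.ext (funext fun n => ?_) (funext fun n => ?_)
    · simp
    · have h1 : (2 * n + 1) % 2 = 1 := by omega
      have h2 : (2 * n + 1) / 2 = n := by omega
      simp [h1, h2]
  continuous_toFun := by
    refine Continuous.prodMk (continuous_pi fun n => ?_) (continuous_pi fun n => ?_)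
    · exact (continuous_of_discreteTopology (f := fun b : Bool => !b)).comp (continuous_apply _)
    · exact continuous_apply _
  continuous_invFun := by
    refine continuous_pi fun m => ?_
    by_cases h : m % 2 = 0
    · simp only [h, if_true]
      exact (continuous_of_discreteTopology (f := fun b : Bool => !b)).comp
        ((continuous_apply (m / 2)).comp continuous_fst)
    · simp only [h, if_false]
      exact (continuous_apply (m / 2)).comp continuous_snd

/-- `a` is contained in `b` up to finitely many elements -/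
def Le (a b : ℕ → Bool) : Prop := ∀ᶠ n in atTop, a n = true → b n = true

theorem Le.refl (a : ℕ → Bool) : Le a a := Eventually.of_forall fun _ h => h

theorem Le.of_le {a b : ℕ → Bool} (h : ∀ n, a n = true → b n = true) : Le a b :=
  Eventually.of_forall h

/-- the set of all codes of pairs in the relation `R` -/
def Code (R : (ℕ → Bool) → (ℕ → Bool) → Prop) : Set (ℕ → Bool) :=
  {z | R (fun n => !(z (2 * n))) (fun n => z (2 * n + 1))}

variable {R : (ℕ → Bool) → (ℕ → Bool) → Prop}

theorem code_up (hR : ∀ a a' b b', Le a' a → Le b b' → R a b → R a' b') (x y : ℕ → Bool)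
    (hx : x ∈ Code R) (h : ∀ n, x n = true → y n = true) : y ∈ Code R := by
  refine hR _ _ _ _ (Le.of_le fun n hn => ?_) (Le.of_le fun n hn => h _ hn) hx
  by_contra hc
  have h1 : x (2 * n) = true := by simpa using hc
  have h2 := h _ h1
  simp [h2] at hn

/-- the zero-one law for monotone relations -/
theorem generic (hR : ∀ a a' b b', Le a' a → Le b b' → R a b → R a' b')
    (hD : ∀ σ, Determined (Pool.Agent.W885.TD.sat (Code R) (Pool.Agent.W885.TD.cc σ))) :
    (∀ᶠ p in residual ((ℕ → Bool) × (ℕ → Bool)), R p.1 p.2) ∨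
      (∀ᶠ p in residual ((ℕ → Bool) × (ℕ → Bool)), ¬ R p.1 p.2) := by
  have hB : BaireMeasurableSet (Code R) :=
    Pool.Agent.W885.TD.baire_of_determined (fun a b ha hab => code_up hR a b ha hab) hD
  have h01 := zero_one hB (fun x y hxy hx => by
    obtain ⟨N, hN⟩ := eventually_atTop.1 hxy
    refine hR _ _ _ _ ?_ ?_ hx
    · filter_upwards [eventually_ge_atTop N] with n hn h1
      rw [hN (2 * n) (by omega)]
      exact h1
    · filter_upwards [eventually_ge_atTop N] with n hn h1
      rw [← hN (2 * n + 1) (by omega)]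
      exact h1)
  have ht : Tendsto split.symm (residual ((ℕ → Bool) × (ℕ → Bool))) (residual (ℕ → Bool)) :=
    tendsto_residual_of_isOpenMap split.symm.continuous split.symm.isOpenMap
  have key : ∀ p : (ℕ → Bool) × (ℕ → Bool), split.symm p ∈ Code R ↔ R p.1 p.2 := by
    intro p
    have h1 : split (split.symm p) = p := split.apply_symm_apply p
    have h2 : (fun n => !((split.symm p) (2 * n))) = p.1 := congrArg Prod.fst h1
    have h3 : (fun n => (split.symm p) (2 * n + 1)) = p.2 := congrArg Prod.snd h1
    rw [Code, mem_ofPred_eq, h2, h3]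
  rcases h01 with h | h
  · left
    filter_upwards [ht.eventually h] with p hp
    exact (key p).1 hp
  · right
    filter_upwards [ht.eventually h] with p hp
    exact fun h => hp ((key p).2 h)

/-- Sequences of dense open sets inside a residual set. -/
theorem exists_seq {X : Type*} [TopologicalSpace X] {C : Set X} (hC : C ∈ residual X) :
    ∃ f : ℕ → Set X, (∀ n, IsOpen (f n)) ∧ (∀ n, Dense (f n)) ∧ ⋂ n, f n ⊆ C := by
  obtain ⟨S, hSo, hSd, hSc, hS⟩ := mem_residual_iff.1 hC
  rcases S.eq_empty_or_nonempty with rfl | hne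
  · refine ⟨fun _ => Set.univ, fun _ => isOpen_univ, fun _ => dense_univ, ?_⟩
    simpa using hS
  · obtain ⟨f, hf⟩ := hSc.exists_eq_range hne
    refine ⟨f, fun n => hSo _ (hf ▸ Set.mem_range_self n), fun n => hSd _ (hf ▸ Set.mem_range_self n), ?_⟩
    intro x hx
    apply hS
    rw [Set.mem_sInter]
    intro t ht
    rw [hf] at ht
    obtain ⟨n, rfl⟩ := ht
    exact Set.mem_iInter.1 hx n

/-- **The dichotomy.** A preorder on the subsets of the natural numbers extending almost inclusion
either has a residual class, or a Cantor set of incomparable elements. -/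
theorem dichotomy (hR : ∀ a a' b b', Le a' a → Le b b' → R a b → R a' b')
    (hD : ∀ σ, Determined (Pool.Agent.W885.TD.sat (Code R) (Pool.Agent.W885.TD.cc σ)))
    {E : Set ((ℕ → Bool) × (ℕ → Bool))} (hE : E ∈ residual ((ℕ → Bool) × (ℕ → Bool))) :
    (∃ a, ∀ᶠ b in residual (ℕ → Bool), R a b ∧ R b a) ∨
      ∃ h : (ℕ → Bool) → (ℕ → Bool), Continuous h ∧ ∀ s t, s ≠ t → ¬ R (h s) (h t) ∧
        (h s, h t) ∈ E := by
  rcases generic hR hD with h | h
  · left
    have h2 : ∀ᶠ p in residual ((ℕ → Bool) × (ℕ → Bool)), R p.2 p.1 :=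
      (tendsto_residual_of_isOpenMap (Homeomorph.prodComm (ℕ → Bool) (ℕ → Bool)).continuous
        (Homeomorph.prodComm (ℕ → Bool) (ℕ → Bool)).isOpenMap).eventually h
    obtain ⟨a, ha⟩ := (dense_of_mem_residual (ku (h.and h2))).nonempty
    exact ⟨a, ha⟩
  · right
    obtain ⟨f, hf1, hf2, hf3⟩ := exists_seq (h.and hE)
    obtain ⟨g, hg1, hg2⟩ := Pool.Agent.H565R2.FO2.mycielski' f hf1 hf2
    refine ⟨g, hg1, fun s t hst => ?_⟩
    have h4 := hf3 (Set.mem_iInter.2 (hg2 s t hst))
    exact h4

end Pool.Agent.Y576.TD
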